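import Pool.Agent.H80.LV.Defs
import Pool.Agent.H35.W.KSap
import Pool.Agent.H76.GB.HiR

/-!
# LV LR: the truncated Ramanujan expansion

Proof.  `lamR R n = ∑_{r ≤ R} (μ(r)/φ(r)) ramS r n`, `|ramS r n| ≤ φ(r)` (`GB.abs_ramS_le`), period `r` (`GB.ramS_congr`).  For fixed
`1 ≤ r ≤ R ≤ L^A`: `ψ(n) = (μ(r)/φ(r)) ramS r n ee(n c/d)` has norm `≤ 1` and period `r d`, `(r d)^4 ≤ L^{8A} ≤ x`; `ksap 1` with
`K = x`, `a = M`, `b = y`, `β = 0` and period `r d`: `≤ x L (1/|t| + x^{-δ})`.  Sum over `r ≤ R`.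
-/

set_option autoImplicit false

namespace Pool.Agent.H80.LV

open Finset
open Pool.Agent.H91.PK (ee)
open Pool.Agent.H91.EHA (Lam hR lamR)

private theorem LR_ee_int (m : ℤ) : ee (m : ℝ) = 1 := by
  unfold ee
  rw [Complex.exp_eq_one_iff]
  exact ⟨m, by push_cast; ring⟩

/-- the periodic function -/
private noncomputable def LR_psi (r d : ℕ) (c : ℤ) (j : ℕ) : ℂ :=
  (((ArithmeticFunction.moebius r : ℝ) / (r.totient : ℝ) *
    Pool.Agent.H91.EHA.ramS r j : ℝ) : ℂ) * ee ((j : ℝ) * ((c : ℝ) / d))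

private theorem LR_psi_per (r d : ℕ) (c : ℤ) (hd : 1 ≤ d) (j : ℕ) :
    LR_psi r d c (j + r * d) = LR_psi r d c j := by
  unfold LR_psi
  have h1 : Pool.Agent.H91.EHA.ramS r (j + r * d) = Pool.Agent.H91.EHA.ramS r j := by
    apply Pool.Agent.H76.GB.ramS_congr
    unfold Nat.ModEq
    exact Nat.add_mul_mod_self_left _ _ _
  have hd0 : (d : ℝ) ≠ 0 := by exact_mod_cast (by omega : d ≠ 0)
  have h2 : ee ((((j + r * d : ℕ)) : ℝ) * ((c : ℝ) / d)) = ee ((j : ℝ) * ((c : ℝ) / d)) := by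
    have e : (((j + r * d : ℕ)) : ℝ) * ((c : ℝ) / d) =
        (j : ℝ) * ((c : ℝ) / d) + (((r : ℤ) * c : ℤ) : ℝ) := by
      push_cast
      field_simp
    rw [e, Pool.Agent.H91.PK.LSa_ee_add, LR_ee_int, mul_one]
  rw [h1, h2]

private theorem LR_psi_le (r d : ℕ) (c : ℤ) (hr : 1 ≤ r) (j : ℕ) :
    ‖LR_psi r d c j‖ ≤ 1 := by
  unfold LR_psi
  rw [norm_mul, Pool.Agent.H91.PK.LSa_norm_ee, mul_one, Complex.norm_real, Real.norm_eq_abs,
    abs_mul, abs_div]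
  have hφ : (0 : ℝ) < r.totient := by exact_mod_cast Nat.totient_pos.2 (by omega)
  rw [abs_of_pos hφ]
  have h1 : |(ArithmeticFunction.moebius r : ℝ)| ≤ 1 := by
    have := ArithmeticFunction.abs_moebius_le_one (n := r)
    exact_mod_cast this
  have h2 := Pool.Agent.H76.GB.abs_ramS_le r j hr
  calc |(ArithmeticFunction.moebius r : ℝ)| / (r.totient : ℝ) * |Pool.Agent.H91.EHA.ramS r j|
      ≤ 1 / (r.totient : ℝ) * (r.totient : ℝ) :=
        mul_le_mul (div_le_div_of_nonneg_right h1 hφ.le) h2 (abs_nonneg _) (by positivity)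
    _ = 1 := by field_simp

private theorem LR_sum (d M y R : ℕ) (c : ℤ) (t : ℝ) :
    ∑ n ∈ Ioc M y, ((lamR R n : ℝ) : ℂ) * gE ((c : ℝ) / d) t n =
      ∑ r ∈ Icc 1 R, ∑ n ∈ Ioc M y, LR_psi r d c n * ee (t * Real.log ((n : ℝ) + 0)) := by
  rw [sum_comm]
  refine sum_congr rfl fun n _ => ?_
  unfold lamR gE LR_psi
  rw [Pool.Agent.H91.PK.LSa_ee_add]
  push_cast
  rw [sum_mul]
  refine sum_congr rfl fun r _ => ?_
  rw [add_zero]
  ring

theorem lr : ∃ δ : ℝ, 0 < δ ∧ δ ≤ 1 ∧ ∀ A : ℕ, ∃ x0 : ℕ, ∀ x : ℕ, x0 ≤ x →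
    ∀ (M y d R : ℕ) (c : ℤ) (t : ℝ), 1 ≤ d → (d : ℝ) ≤ Real.log x ^ A → (R : ℝ) ≤ Real.log x ^ A →
      y ≤ x → 1 ≤ |t| → |t| ≤ (x : ℝ) ^ (2 : ℕ) →
      ‖∑ n ∈ Ioc M y, ((lamR R n : ℝ) : ℂ) * gE ((c : ℝ) / d) t n‖
        ≤ x * Real.log x ^ (A + 1) * (1 / |t| + (x : ℝ) ^ (-δ)) := by
  obtain ⟨δ, hδ0, hδ1, x1, hx1⟩ := Pool.Agent.H35.W.ksap 1 one_pos
  refine ⟨δ, hδ0, hδ1, fun A => ?_⟩
  obtain ⟨x2, hx2⟩ := log_pow_le 1 1 one_pos one_pos (8 * A)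
  obtain ⟨x3, hx3⟩ := log_ge 1
  refine ⟨max (max x1 x2) (max x3 4), ?_⟩
  intro x hx M y d R c t hd hdA hRA hy ht1 ht2
  have hxa : x1 ≤ x := (le_max_left _ _).trans ((le_max_left _ _).trans hx)
  have hxb : x2 ≤ x := (le_max_right _ _).trans ((le_max_left _ _).trans hx)
  have hxc : x3 ≤ x := (le_max_left _ _).trans ((le_max_right _ _).trans hx)
  have hxd : 4 ≤ x := (le_max_right _ _).trans ((le_max_right _ _).trans hx)
  have hxr : (1 : ℝ) ≤ x := by exact_mod_cast (by omega : 1 ≤ x)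
  have hL : 1 ≤ Real.log x := hx3 x hxc
  have hL0 : 0 ≤ Real.log x := by linarith
  have h8 := hx2 x hxb
  rw [one_mul, Real.rpow_one] at h8
  have hLA : 0 ≤ Real.log x ^ A := by positivity
  rw [LR_sum d M y R c t]
  have hterm : ∀ r ∈ Icc 1 R,
      ‖∑ n ∈ Ioc M y, LR_psi r d c n * ee (t * Real.log ((n : ℝ) + 0))‖ ≤
      x * Real.log x * (1 / |t| + (x : ℝ) ^ (-δ)) := by
    intro r hr
    rw [mem_Icc] at hr
    have hrR : (r : ℝ) ≤ Real.log x ^ A := le_trans (by exact_mod_cast hr.2) hRA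
    refine hx1 x hxa x (r * d) M y (LR_psi r d c) 0 t
      (by rw [Real.rpow_one]) le_rfl (Nat.mul_pos (by omega) (by omega)) ?_
      (LR_psi_per r d c hd) (LR_psi_le r d c hr.1) hy le_rfl zero_le_one ht1 ?_
    · have h1 : ((r : ℝ) * d) ^ 4 ≤ x := by
        refine le_trans ?_ h8
        have h2 : (r : ℝ) * d ≤ Real.log x ^ A * Real.log x ^ A :=
          mul_le_mul hrR hdA (Nat.cast_nonneg _) hLA
        calc ((r : ℝ) * d) ^ 4 ≤ (Real.log x ^ A * Real.log x ^ A) ^ 4 :=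
              pow_le_pow_left₀ (by positivity) h2 4
          _ = Real.log x ^ (8 * A) := by
              rw [← pow_add, ← pow_mul]
              congr 1
              ring
      exact_mod_cast h1
    · refine ht2.trans ?_
      exact pow_le_pow_right₀ hxr (by norm_num)
  refine (norm_sum_le _ _).trans ((sum_le_sum hterm).trans ?_)
  rw [sum_const, Nat.card_Icc, nsmul_eq_mul, Nat.add_sub_cancel]
  have ht0 : 0 < |t| := by linarith
  have hinv : 0 ≤ 1 / |t| := by positivity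
  have hZ : 0 ≤ (x : ℝ) ^ (-δ) := by positivity
  calc ((R : ℕ) : ℝ) * (x * Real.log x * (1 / |t| + (x : ℝ) ^ (-δ)))
      ≤ Real.log x ^ A * (x * Real.log x * (1 / |t| + (x : ℝ) ^ (-δ))) := by
        refine mul_le_mul_of_nonneg_right hRA (by positivity)
    _ = x * Real.log x ^ (A + 1) * (1 / |t| + (x : ℝ) ^ (-δ)) := by
        rw [pow_succ]
        ring

end Pool.Agent.H80.LV
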