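import Pool.Agent.H80.LV.Pre
import Pool.Agent.H80.LV.LR

/-!
# LV Main: large values of the correlations of `hR R` with `e(n c/d) n^{2 π i t}`

Output of Part II of PROJECT SP.  For `M ≤ y`: `cor (hR R) 0 M α t y = P(y) - P(M) - ∑_{Ioc M y} lamR R n gE α t n`, with
`P(y) = ∑_{n ≤ y} Λ(n) gE α t n` (`pre` with `K + 4`), and `lr`: `(x L^{A+1} (1/T + x^{-δ}))^2 vol B ≤ 2 x^2 L^{2A+2} (T^{-2} + x^{-2δ}) T^η L^A
≤ x^2/L^{K+4}` (`η ≤ δ/2`, `η ≤ 1`; `T^η ≤ x^{2η}`).  `|a - b - c|^2 ≤ 3 (..)`.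
-/

set_option autoImplicit false

namespace Pool.Agent.H80.LV

open Finset MeasureTheory
open Pool.Agent.H91.PK (ee)
open Pool.Agent.H91.EHA (Lam hR lamR)
open Pool.Agent.H35.W (cor)

/-- continuity of the exponential sums -/
theorem Main_cont (s : Finset ℕ) (a : ℕ → ℂ) (α : ℝ) :
    Continuous (fun t : ℝ => ∑ n ∈ s, a n * gE α t n) := by
  refine continuous_finsetSum _ fun n _ => continuous_const.mul ?_
  unfold gE ee
  fun_prop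

/-- integrability on bounded sets -/
theorem Main_int (F : ℝ → ℂ) (hF : Continuous F) (B : Set ℝ) (hB : MeasurableSet B) (Y : ℝ)
    (hY : ∀ t ∈ B, |t| ≤ Y) : IntegrableOn (fun t => ‖F t‖ ^ 2) B := by
  have h1 : IntegrableOn (fun t => ‖F t‖ ^ 2) (Set.Icc (-Y) Y) :=
    (hF.norm.pow 2).continuousOn.integrableOn_compact isCompact_Icc
  exact h1.mono_set fun t ht => abs_le.1 (hY t ht)

theorem Main_fin (B : Set ℝ) (Y : ℝ) (hY : ∀ t ∈ B, |t| ≤ Y) : volume B ≠ ⊤ := by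
  have h1 : B ⊆ Set.Icc (-Y) Y := fun t ht => abs_le.1 (hY t ht)
  exact ne_top_of_le_ne_top (by rw [Real.volume_Icc]; exact ENNReal.ofReal_ne_top) (measure_mono h1)

/-- the splitting of `cor` -/
theorem Main_cor (R M y : ℕ) (hMy : M ≤ y) (α t : ℝ) :
    cor (hR R) 0 M α t y = ∑ n ∈ Icc 1 y, ((Lam n : ℝ) : ℂ) * gE α t n
      - ∑ n ∈ Icc 1 M, ((Lam n : ℝ) : ℂ) * gE α t n
      - ∑ n ∈ Ioc M y, ((lamR R n : ℝ) : ℂ) * gE α t n := by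
  have h1 : Icc 1 y = Icc 1 M ∪ Ioc M y := by
    ext n
    simp only [mem_union, mem_Icc, mem_Ioc]
    omega
  have h2 : Disjoint (Icc 1 M) (Ioc M y) := by
    rw [Finset.disjoint_left]
    intro n hn hn2
    rw [mem_Icc] at hn
    rw [mem_Ioc] at hn2
    omega
  rw [h1, sum_union h2, add_sub_cancel_left, ← sum_sub_distrib]
  unfold cor
  refine sum_congr rfl fun n _ => ?_
  unfold hR gE
  rw [← sub_mul]
  push_cast
  rw [sub_zero]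

theorem Main_sq (a b c : ℂ) : ‖a - b - c‖ ^ 2 ≤ 3 * ‖a‖ ^ 2 + 3 * ‖b‖ ^ 2 + 3 * ‖c‖ ^ 2 := by
  have h1 : ‖a - b - c‖ ≤ ‖a‖ + ‖b‖ + ‖c‖ :=
    (norm_sub_le _ _).trans (add_le_add (norm_sub_le _ _) le_rfl)
  have h2 : ‖a - b - c‖ ^ 2 ≤ (‖a‖ + ‖b‖ + ‖c‖) ^ 2 := pow_le_pow_left₀ (norm_nonneg _) h1 2
  nlinarith [sq_nonneg (‖a‖ - ‖b‖), sq_nonneg (‖b‖ - ‖c‖), sq_nonneg (‖a‖ - ‖c‖)]

theorem Main_split (B : Set ℝ) (f1 f2 f3 : ℝ → ℝ) (i1 : IntegrableOn f1 B)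
    (i2 : IntegrableOn f2 B) (i3 : IntegrableOn f3 B) :
    ∫ t in B, (3 * f1 t + 3 * f2 t + 3 * f3 t)
      = 3 * (∫ t in B, f1 t) + 3 * (∫ t in B, f2 t) + 3 * (∫ t in B, f3 t) := by
  have j1 : IntegrableOn (fun t => 3 * f1 t) B := i1.const_mul 3
  have j2 : IntegrableOn (fun t => 3 * f2 t) B := i2.const_mul 3
  have j3 : IntegrableOn (fun t => 3 * f3 t) B := i3.const_mul 3
  have k1 : ∫ t in B, (3 * f1 t + 3 * f2 t + 3 * f3 t)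
      = (∫ t in B, (3 * f1 t + 3 * f2 t)) + ∫ t in B, 3 * f3 t := integral_add (j1.add j2) j3
  have k2 : ∫ t in B, (3 * f1 t + 3 * f2 t) = (∫ t in B, 3 * f1 t) + ∫ t in B, 3 * f2 t :=
    integral_add j1 j2
  rw [k1, k2, integral_const_mul, integral_const_mul, integral_const_mul]

theorem lv (hVK : VK) : ∃ η : ℝ, 0 < η ∧ η ≤ 1 ∧ ∀ K A : ℕ, ∃ K' x0 : ℕ, ∀ x : ℕ, x0 ≤ x →
    ∀ (M y d R : ℕ) (c : ℤ) (T : ℝ) (B : Set ℝ), 1 ≤ d → (d : ℝ) ≤ Real.log x ^ A →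
      (R : ℝ) ≤ Real.log x ^ A → y ≤ x → Real.log x ^ K' ≤ T → 2 * T ≤ (x : ℝ) ^ (2 : ℕ) →
      MeasurableSet B → (∀ t ∈ B, T ≤ |t| ∧ |t| ≤ 2 * T) →
      volume.real B ≤ T ^ η * Real.log x ^ A →
      ∫ t in B, ‖cor (hR R) 0 M ((c : ℝ) / d) t y‖ ^ 2 ≤ (x : ℝ) ^ 2 / Real.log x ^ K := by
  obtain ⟨η1, h1a, h1b, H1⟩ := pre hVK
  obtain ⟨δ, hδ, hδ1, H2⟩ := lr
  have he1 : min η1 (δ / 2) ≤ η1 := min_le_left _ _
  have he2 : min η1 (δ / 2) ≤ δ / 2 := min_le_right _ _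
  have he0 : 0 < min η1 (δ / 2) := by positivity
  refine ⟨min η1 (δ / 2), he0, by linarith, fun K A => ?_⟩
  generalize min η1 (δ / 2) = η at he1 he2 he0
  obtain ⟨K1, x1, H1⟩ := H1 (K + 1) A
  obtain ⟨x2, H2⟩ := H2 A
  obtain ⟨x3, H3⟩ := log_ge 18
  obtain ⟨x4, H4⟩ := log_pow_le δ 1 hδ one_pos (K + 3 * A + 3)
  refine ⟨K1 + (K + 3 * A + 3), x1 + x2 + x3 + x4 + 1, ?_⟩
  intro x hx M y d R c T B hd hdA hR' hyx hT hTx hB hBT hv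
  have hL : 18 ≤ Real.log x := H3 x (by omega)
  have H4' := H4 x (by omega)
  set L := Real.log x with hLdef
  have hL0 : 0 < L := by linarith
  have hL1 : 1 ≤ L := by linarith
  have hxN : 1 ≤ x := by omega
  have hx1 : (1 : ℝ) ≤ (x : ℝ) := by exact_mod_cast hxN
  have hx0 : (0 : ℝ) < (x : ℝ) := by linarith
  have hLp : ∀ k : ℕ, 1 ≤ L ^ k := fun k => one_le_pow₀ hL1
  have hT1 : L ^ K1 ≤ T := (pow_le_pow_right₀ hL1 (by omega)).trans hT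
  have hT2 : L ^ (K + 3 * A + 3) ≤ T := (pow_le_pow_right₀ hL1 (by omega)).trans hT
  have hT1' : 1 ≤ T := (hLp _).trans hT1
  have hT0 : 0 < T := by linarith
  have hBx : ∀ t ∈ B, |t| ≤ (x : ℝ) ^ (2 : ℕ) := fun t ht => (hBT t ht).2.trans hTx
  rcases le_or_gt M y with hMy | hMy
  swap
  · have h0 : ∀ t, cor (hR R) 0 M ((c : ℝ) / d) t y = 0 := by
      intro t
      unfold cor
      rw [Ioc_eq_empty (by omega), sum_empty]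
    simp only [h0, norm_zero]
    rw [zero_pow (by norm_num), integral_zero]
    positivity
  set α : ℝ := (c : ℝ) / d with hα
  have hMx : M ≤ x := hMy.trans hyx
  have hTη : T ^ η ≤ T ^ η1 := Real.rpow_le_rpow_of_exponent_le hT1' he1
  have hv1 : volume.real B ≤ T ^ η1 * L ^ A := hv.trans (mul_le_mul_of_nonneg_right hTη (by positivity))
  have e1 := H1 x (by omega) y d c T B hd hdA hyx hT1 hTx hB hBT hv1
  have e2 := H1 x (by omega) M d c T B hd hdA hMx hT1 hTx hB hBT hv1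
  rw [← hLdef] at e1 e2
  -- the Ramanujan part
  have hQ : ∀ t ∈ B, ‖∑ n ∈ Ioc M y, ((lamR R n : ℝ) : ℂ) * gE α t n‖ ^ 2
      ≤ 2 * (x : ℝ) ^ 2 * L ^ (2 * A + 2) * (T⁻¹ ^ 2 + ((x : ℝ) ^ (-δ)) ^ 2) := by
    intro t ht
    have ht1 := (hBT t ht).1
    have h1 := H2 x (by omega) M y d R c t hd hdA hR' hyx (hT1'.trans ht1) (hBx t ht)
    rw [← hLdef, ← hα] at h1
    have h2 : 1 / |t| ≤ T⁻¹ := by
      rw [one_div]
      exact inv_anti₀ hT0 ht1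
    have h3 : 0 ≤ (x : ℝ) ^ (-δ) := Real.rpow_nonneg hx0.le _
    have h4 : ‖∑ n ∈ Ioc M y, ((lamR R n : ℝ) : ℂ) * gE α t n‖
        ≤ x * L ^ (A + 1) * (T⁻¹ + (x : ℝ) ^ (-δ)) := by
      refine h1.trans ?_
      gcongr
    calc ‖∑ n ∈ Ioc M y, ((lamR R n : ℝ) : ℂ) * gE α t n‖ ^ 2
        ≤ (x * L ^ (A + 1) * (T⁻¹ + (x : ℝ) ^ (-δ))) ^ 2 :=
          pow_le_pow_left₀ (norm_nonneg _) h4 2
      _ = (x : ℝ) ^ 2 * L ^ (2 * A + 2) * (T⁻¹ + (x : ℝ) ^ (-δ)) ^ 2 := by ring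
      _ ≤ (x : ℝ) ^ 2 * L ^ (2 * A + 2) * (2 * (T⁻¹ ^ 2 + ((x : ℝ) ^ (-δ)) ^ 2)) := by
          apply mul_le_mul_of_nonneg_left _ (by positivity)
          nlinarith [sq_nonneg (T⁻¹ - (x : ℝ) ^ (-δ))]
      _ = _ := by ring
  have hvol0 : 0 ≤ volume.real B := measureReal_nonneg
  have hfin : volume B ≠ ⊤ := Main_fin B _ hBx
  have e3 : ∫ t in B, ‖∑ n ∈ Ioc M y, ((lamR R n : ℝ) : ℂ) * gE α t n‖ ^ 2
      ≤ 4 * (x : ℝ) ^ 2 / L ^ (K + 1) := by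
    have h1 : ∫ t in B, ‖∑ n ∈ Ioc M y, ((lamR R n : ℝ) : ℂ) * gE α t n‖ ^ 2
        ≤ ∫ t in B, 2 * (x : ℝ) ^ 2 * L ^ (2 * A + 2) * (T⁻¹ ^ 2 + ((x : ℝ) ^ (-δ)) ^ 2) := by
      refine setIntegral_mono_on ?_ ?_ hB hQ
      · exact Main_int _ (Main_cont _ _ α) B hB _ hBx
      · exact integrableOn_const hfin
    rw [setIntegral_const, smul_eq_mul] at h1
    refine h1.trans ?_
    have h2 : volume.real B * (T⁻¹ ^ 2 + ((x : ℝ) ^ (-δ)) ^ 2) ≤ 2 * L ^ A / L ^ (K + 3 * A + 3) := by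
      have h3 : T ^ η * T⁻¹ ^ 2 ≤ (L ^ (K + 3 * A + 3))⁻¹ := by
        have h4 : T ^ η ≤ T := by
          calc T ^ η ≤ T ^ (1 : ℝ) := Real.rpow_le_rpow_of_exponent_le hT1' (by linarith)
            _ = T := Real.rpow_one T
        calc T ^ η * T⁻¹ ^ 2 ≤ T * T⁻¹ ^ 2 := mul_le_mul_of_nonneg_right h4 (by positivity)
          _ = T⁻¹ := by field_simp
          _ ≤ (L ^ (K + 3 * A + 3))⁻¹ := inv_anti₀ (by positivity) hT2
      have h5 : T ^ η * ((x : ℝ) ^ (-δ)) ^ 2 ≤ (L ^ (K + 3 * A + 3))⁻¹ := by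
        have h6 : T ^ η ≤ (x : ℝ) ^ δ := by
          calc T ^ η ≤ ((x : ℝ) ^ (2 : ℕ)) ^ η := by
                apply Real.rpow_le_rpow hT0.le (by linarith) he0.le
            _ = (x : ℝ) ^ (2 * η) := by
                rw [← Real.rpow_natCast, ← Real.rpow_mul hx0.le]
                norm_num
            _ ≤ (x : ℝ) ^ δ := Real.rpow_le_rpow_of_exponent_le hx1 (by linarith)
        have h7 : ((x : ℝ) ^ (-δ)) = ((x : ℝ) ^ δ)⁻¹ := Real.rpow_neg hx0.le δ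
        have h8 : 0 < (x : ℝ) ^ δ := Real.rpow_pos_of_pos hx0 δ
        rw [h7]
        calc T ^ η * (((x : ℝ) ^ δ)⁻¹) ^ 2 ≤ (x : ℝ) ^ δ * (((x : ℝ) ^ δ)⁻¹) ^ 2 :=
              mul_le_mul_of_nonneg_right h6 (by positivity)
          _ = ((x : ℝ) ^ δ)⁻¹ := by field_simp
          _ ≤ (L ^ (K + 3 * A + 3))⁻¹ := inv_anti₀ (by positivity) (by linarith)
      calc volume.real B * (T⁻¹ ^ 2 + ((x : ℝ) ^ (-δ)) ^ 2)
          ≤ T ^ η * L ^ A * (T⁻¹ ^ 2 + ((x : ℝ) ^ (-δ)) ^ 2) :=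
            mul_le_mul_of_nonneg_right hv (by positivity)
        _ = L ^ A * (T ^ η * T⁻¹ ^ 2 + T ^ η * ((x : ℝ) ^ (-δ)) ^ 2) := by ring
        _ ≤ L ^ A * ((L ^ (K + 3 * A + 3))⁻¹ + (L ^ (K + 3 * A + 3))⁻¹) := by
            apply mul_le_mul_of_nonneg_left _ (by positivity)
            linarith
        _ = 2 * L ^ A / L ^ (K + 3 * A + 3) := by rw [div_eq_mul_inv]; ring
    calc volume.real B * (2 * (x : ℝ) ^ 2 * L ^ (2 * A + 2) * (T⁻¹ ^ 2 + ((x : ℝ) ^ (-δ)) ^ 2))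
        = 2 * (x : ℝ) ^ 2 * L ^ (2 * A + 2) * (volume.real B * (T⁻¹ ^ 2 + ((x : ℝ) ^ (-δ)) ^ 2)) := by
          ring
      _ ≤ 2 * (x : ℝ) ^ 2 * L ^ (2 * A + 2) * (2 * L ^ A / L ^ (K + 3 * A + 3)) := by
          apply mul_le_mul_of_nonneg_left h2 (by positivity)
      _ = 4 * (x : ℝ) ^ 2 / L ^ (K + 1) := by
          have h9 : L ^ (K + 3 * A + 3) = L ^ (K + 1) * (L ^ (2 * A + 2) * L ^ A) := by ring
          rw [h9]
          field_simp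
          ring
  -- combine
  have hmain : ∫ t in B, ‖cor (hR R) 0 M α t y‖ ^ 2
      ≤ ∫ t in B, (3 * ‖∑ n ∈ Icc 1 y, ((Lam n : ℝ) : ℂ) * gE α t n‖ ^ 2
        + 3 * ‖∑ n ∈ Icc 1 M, ((Lam n : ℝ) : ℂ) * gE α t n‖ ^ 2
        + 3 * ‖∑ n ∈ Ioc M y, ((lamR R n : ℝ) : ℂ) * gE α t n‖ ^ 2) := by
    have i1 := Main_int _ (Main_cont (Icc 1 y) (fun n => ((Lam n : ℝ) : ℂ)) α) B hB _ hBx
    have i2 := Main_int _ (Main_cont (Icc 1 M) (fun n => ((Lam n : ℝ) : ℂ)) α) B hB _ hBx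
    have i3 := Main_int _ (Main_cont (Ioc M y) (fun n => ((lamR R n : ℝ) : ℂ)) α) B hB _ hBx
    refine setIntegral_mono_on ?_ (((i1.const_mul 3).add (i2.const_mul 3)).add (i3.const_mul 3)) hB ?_
    · have hc : Continuous (fun t => cor (hR R) 0 M α t y) := by
        simp only [Main_cor R M y hMy]
        exact ((Main_cont _ _ α).sub (Main_cont _ _ α)).sub (Main_cont _ _ α)
      exact Main_int _ hc B hB _ hBx
    · intro t _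
      rw [Main_cor R M y hMy]
      exact Main_sq _ _ _
  have i1 := Main_int _ (Main_cont (Icc 1 y) (fun n => ((Lam n : ℝ) : ℂ)) α) B hB _ hBx
  have i2 := Main_int _ (Main_cont (Icc 1 M) (fun n => ((Lam n : ℝ) : ℂ)) α) B hB _ hBx
  have i3 := Main_int _ (Main_cont (Ioc M y) (fun n => ((lamR R n : ℝ) : ℂ)) α) B hB _ hBx
  have hsplit : ∫ t in B, (3 * ‖∑ n ∈ Icc 1 y, ((Lam n : ℝ) : ℂ) * gE α t n‖ ^ 2
        + 3 * ‖∑ n ∈ Icc 1 M, ((Lam n : ℝ) : ℂ) * gE α t n‖ ^ 2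
        + 3 * ‖∑ n ∈ Ioc M y, ((lamR R n : ℝ) : ℂ) * gE α t n‖ ^ 2)
      = 3 * (∫ t in B, ‖∑ n ∈ Icc 1 y, ((Lam n : ℝ) : ℂ) * gE α t n‖ ^ 2)
        + 3 * (∫ t in B, ‖∑ n ∈ Icc 1 M, ((Lam n : ℝ) : ℂ) * gE α t n‖ ^ 2)
        + 3 * (∫ t in B, ‖∑ n ∈ Ioc M y, ((lamR R n : ℝ) : ℂ) * gE α t n‖ ^ 2) :=
    Main_split B _ _ _ i1 i2 i3
  refine hmain.trans ?_
  rw [hsplit]
  have hfin2 : 18 * ((x : ℝ) ^ 2 / L ^ (K + 1)) ≤ (x : ℝ) ^ 2 / L ^ K := by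
    rw [pow_succ L K]
    have h1 : (x : ℝ) ^ 2 / (L ^ K * L) = (x : ℝ) ^ 2 / L ^ K * (1 / L) := by
      field_simp
    rw [h1]
    have h2 : 1 / L ≤ 1 / 18 := one_div_le_one_div_of_le (by norm_num) hL
    have h3 : 0 ≤ (x : ℝ) ^ 2 / L ^ K := by positivity
    nlinarith
  have h18 : 3 * ((x : ℝ) ^ 2 / L ^ (K + 1)) + 3 * ((x : ℝ) ^ 2 / L ^ (K + 1))
      + 3 * (4 * (x : ℝ) ^ 2 / L ^ (K + 1)) = 18 * ((x : ℝ) ^ 2 / L ^ (K + 1)) := by ring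
  linarith

end Pool.Agent.H80.LV
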